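import Pool.Agent.Helper97.LPP.Defs

/-! LPP-3: conditioning on the exact value of `e + m(Y)`, `e` exponential and independent of `Y`. -/

open MeasureTheory ProbabilityTheory Filter Topology
open scoped ENNReal

namespace Helper97.LPP

theorem h71_expMeasure_Ioo {a b : ℝ} (ha : 0 ≤ a) (hab : a ≤ b) :
    expMeasure 1 (Set.Ioo a b) = ENNReal.ofReal (Real.exp (-a) - Real.exp (-b)) := by
  have h1 : expMeasure 1 (Set.Ioo a b) = expMeasure 1 (Set.Ioc a b) := by
    apply measure_congr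
    have : NullSingletonClass (expMeasure 1) := ⟨fun x => expMeasure_singleton 1 x⟩
    exact Ioo_ae_eq_Ioc
  have h2 : expMeasure 1 (Set.Ioc a b) = (cdf (expMeasure 1)).measure (Set.Ioc a b) := by
    have : IsProbabilityMeasure (expMeasure 1) := isProbabilityMeasure_expMeasure one_pos
    rw [measure_cdf]
  rw [h1, h2, StieltjesFunction.measure_Ioc, cdf_expMeasure_eq one_pos, cdf_expMeasure_eq one_pos,
    if_pos ha, if_pos (ha.trans hab)]
  congr 1
  simp

theorem h71_expMeasure_le (A : Set ℝ) : expMeasure 1 A ≤ volume A := by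
  have h : expMeasure 1 ≤ (volume : Measure ℝ) := by
    rw [expMeasure_eq]
    have h1 : (volume : Measure ℝ) = volume.withDensity 1 := by simp
    conv_rhs => rw [h1]
    apply withDensity_mono
    refine Filter.Eventually.of_forall fun x => ?_
    rcases lt_or_ge x 0 with hx | hx
    · rw [exponentialPDF_of_neg hx]; exact zero_le
    · rw [exponentialPDF_of_nonneg hx]
      have : (1:ℝ) * Real.exp (-(1 * x)) ≤ 1 := by
        rw [one_mul, one_mul]; exact Real.exp_le_one_iff.2 (by linarith)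
      calc ENNReal.ofReal (1 * Real.exp (-(1 * x))) ≤ ENNReal.ofReal 1 :=
            ENNReal.ofReal_le_ofReal this
        _ = (1 : ℝ → ℝ≥0∞) x := by simp
  exact h A

theorem h71_sinh_tendsto :
    Tendsto (fun η : ℝ => (Real.exp η - Real.exp (-η)) / (2 * η)) (𝓝[>] 0) (𝓝 1) := by
  have h := (Real.hasDerivAt_sinh 0).tendsto_slope
  rw [Real.cosh_zero] at h
  have h2 := h.mono_left (nhdsWithin_mono (0:ℝ) (fun y hy => ne_of_gt hy) :
    𝓝[>] (0:ℝ) ≤ 𝓝[≠] 0)
  refine h2.congr' ?_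
  filter_upwards [self_mem_nhdsWithin] with η hη
  have hη' : (0:ℝ) < η := hη
  rw [slope_def_field, Real.sinh_zero, Real.sinh_eq, sub_zero, sub_zero, div_div]

theorem h71_ae_lim {S : Type*} {m : S → ℝ} {x : ℝ} {V : Set (ℝ × S)} (y : S) (hy : m y ≠ x)
    (hc : ∀ᶠ t in 𝓝 x, ((t, y) ∈ V ↔ (x, y) ∈ V)) :
    Tendsto (fun η : ℝ => (ENNReal.ofReal (2 * η))⁻¹ *
      expMeasure 1 {s | (s + m y, y) ∈ V ∧ |s + m y - x| < η}) (𝓝[>] 0)
      (𝓝 (Set.indicator {y | m y < x ∧ (x, y) ∈ V}
        (fun y => ENNReal.ofReal (Real.exp (m y - x))) y)) := by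
  rcases lt_or_gt_of_ne hy with hlt | hgt
  · obtain ⟨ε, hε, hball⟩ := Metric.eventually_nhds_iff.1 hc
    have hev : ∀ᶠ η in 𝓝[>] (0:ℝ), η < min ε (x - m y) := by
      have : ∀ᶠ η in 𝓝 (0:ℝ), η < min ε (x - m y) :=
        gt_mem_nhds (lt_min hε (by linarith))
      exact this.filter_mono nhdsWithin_le_nhds
    by_cases hV : (x, y) ∈ V
    · have hmem : y ∈ {y | m y < x ∧ (x, y) ∈ V} := ⟨hlt, hV⟩
      rw [Set.indicator_of_mem hmem]
      have hlim : Tendsto (fun η : ℝ => ENNReal.ofReal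
          (Real.exp (m y - x) * ((Real.exp η - Real.exp (-η)) / (2 * η)))) (𝓝[>] 0)
          (𝓝 (ENNReal.ofReal (Real.exp (m y - x) * 1))) :=
        ENNReal.tendsto_ofReal (h71_sinh_tendsto.const_mul _)
      rw [mul_one] at hlim
      refine hlim.congr' ?_
      filter_upwards [self_mem_nhdsWithin, hev] with η hη hη2
      have hη' : (0:ℝ) < η := hη
      have h1 : {s | (s + m y, y) ∈ V ∧ |s + m y - x| < η} =
          Set.Ioo (x - m y - η) (x - m y + η) := by
        ext s
        simp only [Set.mem_ofPred_eq, Set.mem_Ioo]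
        constructor
        · rintro ⟨_, h⟩
          rw [abs_lt] at h
          constructor <;> linarith [h.1, h.2]
        · rintro ⟨h, h'⟩
          have h3 : |s + m y - x| < η := by rw [abs_lt]; constructor <;> linarith
          refine ⟨?_, h3⟩
          refine (hball ?_).2 hV
          rw [Real.dist_eq]
          exact h3.trans (hη2.trans_le (min_le_left _ _))
      rw [h1, h71_expMeasure_Ioo _ (by linarith)]
      · rw [← ENNReal.ofReal_inv_of_pos (by positivity), ← ENNReal.ofReal_mul (by positivity)]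
        congr 1
        have e1 : Real.exp (-(x - m y - η)) = Real.exp (m y - x) * Real.exp η := by
          rw [← Real.exp_add]; congr 1; ring
        have e2 : Real.exp (-(x - m y + η)) = Real.exp (m y - x) * Real.exp (-η) := by
          rw [← Real.exp_add]; congr 1; ring
        rw [e1, e2]
        ring
      · have := hη2.trans_le (min_le_right _ _)
        linarith
    · have hmem : y ∉ {y | m y < x ∧ (x, y) ∈ V} := fun h => hV h.2
      rw [Set.indicator_of_notMem hmem]
      refine tendsto_const_nhds.congr' ?_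
      filter_upwards [hev] with η hη2
      have h1 : {s | (s + m y, y) ∈ V ∧ |s + m y - x| < η} = ∅ := by
        ext s
        simp only [Set.mem_ofPred_eq, Set.mem_empty_iff_false, iff_false]
        rintro ⟨h, h'⟩
        refine hV ((hball ?_).1 h)
        rw [Real.dist_eq]
        exact h'.trans (hη2.trans_le (min_le_left _ _))
      rw [h1]; simp
  · have hmem : y ∉ {y | m y < x ∧ (x, y) ∈ V} := fun h => absurd h.1 (not_lt.2 hgt.le)
    rw [Set.indicator_of_notMem hmem]
    have hev : ∀ᶠ η in 𝓝[>] (0:ℝ), η < m y - x := by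
      have : ∀ᶠ η in 𝓝 (0:ℝ), η < m y - x := gt_mem_nhds (by linarith)
      exact this.filter_mono nhdsWithin_le_nhds
    refine tendsto_const_nhds.congr' ?_
    filter_upwards [hev] with η hη2
    have h1 : expMeasure 1 {s | (s + m y, y) ∈ V ∧ |s + m y - x| < η} = 0 := by
      refine measure_mono_null ?_ (expMeasure_Iic 1)
      intro s hs
      have h2 := (abs_lt.1 hs.2).2
      simp only [Set.mem_Iic]
      linarith
    rw [h1]; simp

theorem h71_meas {S : Type*} [MeasurableSpace S] {m : S → ℝ} (hm : Measurable m) {x : ℝ}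
    {V : Set (ℝ × S)} (hV : MeasurableSet V) (η : ℝ) :
    MeasurableSet {p : S × ℝ | (p.2 + m p.1, p.1) ∈ V ∧ |p.2 + m p.1 - x| < η} := by
  have h1 : Measurable (fun p : S × ℝ => p.2 + m p.1) :=
    measurable_snd.add (hm.comp measurable_fst)
  have h0 : Measurable (fun p : S × ℝ => ((p.2 + m p.1, p.1) : ℝ × S)) :=
    h1.prodMk measurable_fst
  have h2 : Measurable (fun p : S × ℝ => |p.2 + m p.1 - x|) :=
    measurable_abs.comp (h1.sub_const x)
  exact (h0 hV).inter (measurableSet_lt h2 measurable_const)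

variable {Ω : Type*} [MeasurableSpace Ω] {P : Measure Ω} [IsProbabilityMeasure P]

theorem h71_lim {S : Type*} [MeasurableSpace S] {Y : Ω → S} (hY : Measurable Y)
    {m : S → ℝ} (hm : Measurable m) {x : ℝ} {V : Set (ℝ × S)} (hV : MeasurableSet V)
    (hc : ∀ᵐ ω ∂P, m (Y ω) ≠ x ∧ ∀ᶠ t in 𝓝 x, ((t, Y ω) ∈ V ↔ (x, Y ω) ∈ V)) :
    Tendsto (fun η : ℝ => ∫⁻ ω, (ENNReal.ofReal (2 * η))⁻¹ *
      expMeasure 1 {s | (s + m (Y ω), Y ω) ∈ V ∧ |s + m (Y ω) - x| < η} ∂P) (𝓝[>] 0)
      (𝓝 (∫⁻ ω, Set.indicator {y | m y < x ∧ (x, y) ∈ V}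
        (fun y => ENNReal.ofReal (Real.exp (m y - x))) (Y ω) ∂P)) := by
  have : IsProbabilityMeasure (expMeasure 1) := isProbabilityMeasure_expMeasure one_pos
  refine tendsto_lintegral_filter_of_dominated_convergence (fun _ => 1) ?_ ?_ ?_ ?_
  · refine Filter.Eventually.of_forall fun η => ?_
    refine Measurable.const_mul ?_ _
    exact (measurable_measure_prodMk_left (h71_meas hm hV η)).comp hY
  · filter_upwards [self_mem_nhdsWithin] with η hη
    have hη' : (0:ℝ) < η := hη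
    refine Filter.Eventually.of_forall fun ω => ?_
    have h1 : expMeasure 1 {s | (s + m (Y ω), Y ω) ∈ V ∧ |s + m (Y ω) - x| < η} ≤
        ENNReal.ofReal (2 * η) := by
      calc expMeasure 1 {s | (s + m (Y ω), Y ω) ∈ V ∧ |s + m (Y ω) - x| < η} ≤
            expMeasure 1 (Set.Ioo (x - m (Y ω) - η) (x - m (Y ω) + η)) := by
            refine measure_mono ?_
            rintro s ⟨_, h⟩
            rw [abs_lt] at h
            constructor <;> linarith [h.1, h.2]
        _ ≤ volume (Set.Ioo (x - m (Y ω) - η) (x - m (Y ω) + η)) := h71_expMeasure_le _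
        _ = ENNReal.ofReal (2 * η) := by rw [Real.volume_Ioo]; congr 1; ring
    calc (ENNReal.ofReal (2 * η))⁻¹ *
          expMeasure 1 {s | (s + m (Y ω), Y ω) ∈ V ∧ |s + m (Y ω) - x| < η} ≤
          (ENNReal.ofReal (2 * η))⁻¹ * ENNReal.ofReal (2 * η) := by gcongr
      _ = 1 := ENNReal.inv_mul_cancel (by simpa using hη') ENNReal.ofReal_ne_top
  · simp
  · filter_upwards [hc] with ω hω
    exact h71_ae_lim (Y ω) hω.1 hω.2

theorem h71_prob {S : Type*} [MeasurableSpace S] {e : Ω → ℝ} {Y : Ω → S} {m : S → ℝ}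
    (he : Measurable e) (hY : Measurable Y) (hm : Measurable m) (hind : IndepFun e Y P)
    (hlaw : P.map e = expMeasure 1) {x : ℝ} {V : Set (ℝ × S)} (hV : MeasurableSet V) (η : ℝ) :
    P {ω | (e ω + m (Y ω), Y ω) ∈ V ∧ |e ω + m (Y ω) - x| < η} =
      ∫⁻ ω, expMeasure 1 {s | (s + m (Y ω), Y ω) ∈ V ∧ |s + m (Y ω) - x| < η} ∂P := by
  have : IsProbabilityMeasure (expMeasure 1) := isProbabilityMeasure_expMeasure one_pos
  have : IsProbabilityMeasure (P.map Y) := Measure.isProbabilityMeasure_map hY.aemeasurable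
  have hW := h71_meas (x := x) hm hV η
  have h1 := hind.symm.map_prod_eq_prod_map_map hY.aemeasurable he.aemeasurable
  rw [hlaw] at h1
  have h2 : P {ω | (e ω + m (Y ω), Y ω) ∈ V ∧ |e ω + m (Y ω) - x| < η} =
      (P.map (fun ω => (Y ω, e ω)))
        {p : S × ℝ | (p.2 + m p.1, p.1) ∈ V ∧ |p.2 + m p.1 - x| < η} := by
    rw [Measure.map_apply (hY.prodMk he) hW]
    rfl
  rw [h2, h1, Measure.prod_apply hW, lintegral_map (measurable_measure_prodMk_left hW) hY]
  rfl

theorem cond_limit {S : Type*} [MeasurableSpace S] {e : Ω → ℝ} {Y : Ω → S} {m : S → ℝ}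
    (he : Measurable e) (hY : Measurable Y) (hm : Measurable m) (hind : IndepFun e Y P)
    (hlaw : P.map e = expMeasure 1) {x : ℝ} {U : Set (ℝ × S)} (hU : MeasurableSet U)
    (hcont : ∀ᵐ ω ∂P, m (Y ω) ≠ x ∧ ∀ᶠ t in 𝓝 x, ((t, Y ω) ∈ U ↔ (x, Y ω) ∈ U))
    (hpos : 0 < P {ω | m (Y ω) < x}) :
    Tendsto (fun η : ℝ => (P {ω | (e ω + m (Y ω), Y ω) ∈ U ∧ |e ω + m (Y ω) - x| < η}).toReal /
        (P {ω | |e ω + m (Y ω) - x| < η}).toReal) (𝓝[>] 0)
      (𝓝 ((∫⁻ ω in {ω | m (Y ω) < x ∧ (x, Y ω) ∈ U},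
          ENNReal.ofReal (Real.exp (m (Y ω) - x)) ∂P).toReal /
        (∫⁻ ω in {ω | m (Y ω) < x}, ENNReal.ofReal (Real.exp (m (Y ω) - x)) ∂P).toReal)) := by
  have hmY : Measurable (fun ω => m (Y ω)) := hm.comp hY
  have hfin : ∀ T : Set Ω, MeasurableSet T → (∀ ω ∈ T, m (Y ω) < x) →
      ∫⁻ ω in T, ENNReal.ofReal (Real.exp (m (Y ω) - x)) ∂P ≠ ∞ := by
    intro T hT h
    refine ne_of_lt (lt_of_le_of_lt ?_ (measure_lt_top P T))
    rw [← setLIntegral_one]
    refine setLIntegral_mono measurable_const ?_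
    intro ω hω
    rw [← ENNReal.ofReal_one]
    refine ENNReal.ofReal_le_ofReal (Real.exp_le_one_iff.2 ?_)
    linarith [h ω hω]
  have key : ∀ V : Set (ℝ × S), MeasurableSet V →
      (∀ᵐ ω ∂P, m (Y ω) ≠ x ∧ ∀ᶠ t in 𝓝 x, ((t, Y ω) ∈ V ↔ (x, Y ω) ∈ V)) →
      Tendsto (fun η : ℝ => (2 * η)⁻¹ *
        (P {ω | (e ω + m (Y ω), Y ω) ∈ V ∧ |e ω + m (Y ω) - x| < η}).toReal) (𝓝[>] 0)
      (𝓝 ((∫⁻ ω in {ω | m (Y ω) < x ∧ (x, Y ω) ∈ V},
          ENNReal.ofReal (Real.exp (m (Y ω) - x)) ∂P).toReal)) := by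
    intro V hV hc
    have hG : MeasurableSet {y : S | m y < x ∧ (x, y) ∈ V} := by
      refine MeasurableSet.inter (measurableSet_lt hm measurable_const) ?_
      exact measurable_prodMk_left hV
    have h1 := h71_lim hY hm hV hc
    have h2 : ∫⁻ ω, Set.indicator {y | m y < x ∧ (x, y) ∈ V}
        (fun y => ENNReal.ofReal (Real.exp (m y - x))) (Y ω) ∂P =
        ∫⁻ ω in {ω | m (Y ω) < x ∧ (x, Y ω) ∈ V},
          ENNReal.ofReal (Real.exp (m (Y ω) - x)) ∂P := by
      have h0 : MeasurableSet {ω | m (Y ω) < x ∧ (x, Y ω) ∈ V} := hY hG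
      rw [← lintegral_indicator h0]
      rfl
    rw [h2] at h1
    have h3 := hfin {ω | m (Y ω) < x ∧ (x, Y ω) ∈ V} (hY hG) (fun ω hω => hω.1)
    have h4 := (ENNReal.tendsto_toReal h3).comp h1
    refine h4.congr' ?_
    filter_upwards [self_mem_nhdsWithin] with η hη
    have hη' : (0:ℝ) < η := hη
    simp only [Function.comp]
    rw [lintegral_const_mul', ENNReal.toReal_mul, h71_prob he hY hm hind hlaw hV,
      ENNReal.toReal_inv, ENNReal.toReal_ofReal (by positivity)]
    rw [ENNReal.inv_ne_top]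
    simpa using hη'
  have hU' := key U hU hcont
  have hT := key Set.univ MeasurableSet.univ (by
    filter_upwards [hcont] with ω hω
    exact ⟨hω.1, by simp⟩)
  simp only [Set.mem_univ, and_true, true_and] at hT
  have hpos' : (∫⁻ ω in {ω | m (Y ω) < x}, ENNReal.ofReal (Real.exp (m (Y ω) - x)) ∂P).toReal
      ≠ 0 := by
    rw [ENNReal.toReal_ne_zero]
    refine ⟨?_, hfin _ (measurableSet_lt hmY measurable_const) (fun ω hω => hω)⟩
    rw [← pos_iff_ne_zero, setLIntegral_pos_iff (by fun_prop)]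
    refine hpos.trans_le (measure_mono ?_)
    intro ω hω
    refine ⟨?_, hω⟩
    simp only [Function.mem_support]
    exact (ENNReal.ofReal_pos.2 (Real.exp_pos _)).ne'
  refine (hU'.div hT hpos').congr' ?_
  filter_upwards [self_mem_nhdsWithin] with η hη
  have hη' : (0:ℝ) < η := hη
  simp only [Pi.div_apply]
  rw [mul_div_mul_left _ _ (by positivity)]

end Helper97.LPP
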